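import Pool.Agent.Helper20.MB.DefsN

/-!
# Project MB (general theory of positively curved sphere bundles): statements of the pieces.
Not imported by any result.
-/

open Filter Metric Module Set
open scoped Topology ContDiff RealInnerProductSpace Manifold

set_option maxSynthPendingDepth 3

namespace Pool.Agent.Helper20.MB.Spec
open Pool.Agent.Helper20.PC Pool.Agent.Helper20.HP Pool.Agent.Helper20.M8 Pool.Agent.Helper20.MB

section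
variable {V Y : Type*} [NormedAddCommGroup V] [NormedSpace ℝ V] [FiniteDimensional ℝ V]
  [NormedAddCommGroup Y] [NormedSpace ℝ Y] [FiniteDimensional ℝ Y]
  {h : V → V →L[ℝ] V →L[ℝ] ℝ} {m : V → Y →L[ℝ] Y →L[ℝ] ℝ}
  {S : V → Y →L[ℝ] Y →L[ℝ] Y →L[ℝ] Y →L[ℝ] ℝ} {A : V → V →L[ℝ] Y →L[ℝ] Y} {x : V} {y : Y}

-- MB-4a
theorem FN_lower (H : NG h m S A x) {b δ : ℝ} (hb : BdN h m S A x b) {X Z : V} {U T : Y}
    {ca sa cb sb : ℝ} (F : Fr h m S δ b x y X Z U T ca sa cb sb) :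
    num h x X Z * (ca * cb) ^ 2 + (1/4) * (δ ^ 2)⁻¹ * (sa * sb) ^ 2
      + δ * (ca * cb) * ((ca * sb) * (- m x (DOmV h A x X X Z y) T)
        + (sa * cb) * (- m x (DOmV h A x Z Z X y) U))
      + δ ^ 2 * ((ca * sb) ^ 2 * ((1/2) * hS4 h S x X X y T y T)
        + (sa * cb) ^ 2 * ((1/2) * hS4 h S x Z Z y U y U))
      - 100 * b ^ 3 * Er δ (ca * cb) (sa * sb) (ca * sb) (sa * cb)
      ≤ FN h m S A δ x y (ca • X) ((sa / δ) • U) (cb • Z) ((sb / δ) • T) := by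
  sorry

-- MB-4b
theorem hor_lower (H : NG h m S A x) {b δ : ℝ} (hb : BdN h m S A x b) {X Z : V} {U T : Y}
    {ca sa cb sb : ℝ} (F : Fr h m S δ b x y X Z U T ca sa cb sb) {th thu thv t1 t2 : V}
    (h1 : IsHF h m S A δ x y (ca • X) ((sa / δ) • U) (cb • Z) ((sb / δ) • T) th)
    (h2 : IsHF h m S A δ x y (ca • X) ((sa / δ) • U) (ca • X) ((sa / δ) • U) thu)
    (h3 : IsHF h m S A δ x y (cb • Z) ((sb / δ) • T) (cb • Z) ((sb / δ) • T) thv)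
    (h4 : ∀ ξ, h x t1 ξ = m x T (OmV A x X ξ y)) (h5 : ∀ ξ, h x t2 ξ = m x U (OmV A x Z ξ y)) :
    δ ^ 2 * ((ca * sb) ^ 2 * ((1/4) * h x t1 t1) + (sa * cb) ^ 2 * ((1/4) * h x t2 t2))
      - 100 * b ^ 3 * Er δ (ca * cb) (sa * sb) (ca * sb) (sa * cb)
      ≤ h x th th - h x thu thv := by
  sorry

-- MB-4c
theorem ver_lower (H : NG h m S A x) {b δ : ℝ} (hb : BdN h m S A x b) {X Z : V} {U T : Y}
    {ca sa cb sb : ℝ} (F : Fr h m S δ b x y X Z U T ca sa cb sb) {t tu tv : Y}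
    (h4 : IsVF m S δ x y (ca • X) ((sa / δ) • U) (cb • Z) ((sb / δ) • T) t)
    (h5 : IsVF m S δ x y (ca • X) ((sa / δ) • U) (ca • X) ((sa / δ) • U) tu)
    (h6 : IsVF m S δ x y (cb • Z) ((sb / δ) • T) (cb • Z) ((sb / δ) • T) tv) :
    - (100 * b ^ 3 * Er δ (ca * cb) (sa * sb) (ca * sb) (sa * cb))
      ≤ δ ^ 2 * MM m S δ x y t t - δ ^ 2 * MM m S δ x y tu tv := by
  sorry

-- MB-5 : principal basis of a plane (adapt Helper41/HP/PA.lean : `simul_diag`, `exists_orth` are general)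
theorem principalM (hV : 2 ≤ finrank ℝ V) (hY : 3 ≤ finrank ℝ Y) {Hf : V →L[ℝ] V →L[ℝ] ℝ}
    (Hs : ∀ u v, Hf u v = Hf v u) (Hp : ∀ u, u ≠ 0 → 0 < Hf u u) {k M : Y →L[ℝ] Y →L[ℝ] ℝ}
    (hy : k y y = 1) (Ms : ∀ p q, M p q = M q p) (Mp : ∀ p, k y p = 0 → p ≠ 0 → 0 < M p p)
    {δ : ℝ} (hδ : 0 < δ) {u v : V × Y} (hu : k y u.2 = 0) (hv : k y v.2 = 0)
    (huv : LinearIndependent ℝ ![u, v]) :
    ∃ (X Z : V) (U T : Y) (ca sa cb sb a b c d : ℝ), Hf X X = 1 ∧ Hf Z Z = 1 ∧ Hf X Z = 0 ∧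
      k y U = 0 ∧ k y T = 0 ∧ M U U = 1 ∧ M T T = 1 ∧ M U T = 0 ∧
      ca ^ 2 + sa ^ 2 = 1 ∧ cb ^ 2 + sb ^ 2 = 1 ∧ a * d - b * c ≠ 0 ∧
      u = a • ((ca • X, (sa / δ) • U) : V × Y) + b • ((cb • Z, (sb / δ) • T) : V × Y) ∧
      v = c • ((ca • X, (sa / δ) • U) : V × Y) + d • ((cb • Z, (sb / δ) • T) : V × Y) := by
  sorry

end

end Pool.Agent.Helper20.MB.Spec
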