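import Pool.Agent.Helper20.MB.DefsG

/-!
# Project MB (general theory of positively curved sphere bundles): statements of the gauge pieces.
Not imported by any result.
-/

open Filter Metric Module Set
open scoped Topology ContDiff RealInnerProductSpace Manifold

set_option maxSynthPendingDepth 3

namespace Pool.Agent.Helper20.MB.Spec
open Pool.Agent.Helper20.PC Pool.Agent.Helper20.HP Pool.Agent.Helper20.M8 Pool.Agent.Helper20.MB

section
variable {V Y : Type*} [NormedAddCommGroup V] [NormedSpace ℝ V] [FiniteDimensional ℝ V]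
  [NormedAddCommGroup Y] [NormedSpace ℝ Y] [FiniteDimensional ℝ Y] {D : BD V Y} {x : V} {y : Y}

-- MB-7a : elementary properties of the gauge transformation
theorem gau_contDiff (A : V → V →L[ℝ] Y →L[ℝ] Y) (x : V) : ContDiff ℝ ∞ (gau A x) := by
  sorry
theorem gau_self (A : V → V →L[ℝ] Y →L[ℝ] Y) (x : V) : gau A x x = ContinuousLinearMap.id ℝ Y := by
  sorry
theorem gau_fderiv (A : V → V →L[ℝ] Y →L[ℝ] Y) (x ζ : V) : fderiv ℝ (gau A x) x ζ = - A x ζ := by
  sorry
theorem gau_fderiv2 (A : V → V →L[ℝ] Y →L[ℝ] Y) (x ξ ζ : V) :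
    fderiv ℝ (fderiv ℝ (gau A x)) x ξ ζ = (1/2 : ℝ) • ((A x ξ) ∘L (A x ζ) + (A x ζ) ∘L (A x ξ)
      - fderiv ℝ A x ξ ζ - fderiv ℝ A x ζ ξ) := by
  sorry
theorem gau_inv (A : V → V →L[ℝ] Y →L[ℝ] Y) (x : V) :
    (∀ᶠ x' in 𝓝 x, (gau A x x').IsInvertible) ∧ ContDiffAt ℝ ∞ (fun x' => (gau A x x').inverse) x := by
  sorry

-- MB-7b : the new data are admissible (uses MB-7a)
theorem til_good (H : D.Good x) : (D.til x).Good x := by
  sorry

-- MB-7c : and in normal gauge (uses MB-7a, MB-7b)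
theorem til_NG (H : D.Good x) : NG (D.til x).h (D.til x).k (D.til x).S (D.til x).A x := by
  sorry

-- MB-7d : pullback of the metric (uses MB-7a)
theorem til_G (H : D.Good x) (η : ℝ) (y : Y) : ∀ᶠ z in 𝓝 (x, y), ∀ u v,
    (D.til x).G η z u v
      = D.G η (gmap D.A x z) (fderiv ℝ (gmap D.A x) z u) (fderiv ℝ (gmap D.A x) z v) := by
  sorry

-- MB-7f : the metric of the sphere bundle is a metric
theorem metAt_G (H : D.Good x) {η : ℝ} (hy : y ≠ 0) (hpos : ∀ a, a ≠ 0 → 0 < fibL D.k D.S η (x, y) a a) :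
    MetAt (D.G η) (x, y) := by
  sorry

-- MB-7e : naturality of the curvature (uses MB-7a, MB-7b, MB-7d, MB-7f and HP.num_pullback)
theorem til_num (H : D.Good x) {η : ℝ} (hy : y ≠ 0)
    (hpos : ∀ a, a ≠ 0 → 0 < fibL D.k D.S η (x, y) a a) (u v : V × Y) :
    num ((D.til x).G η) (x, y) u v
      = num (D.G η) (x, y) (u.1, u.2 - D.A x u.1 y) (v.1, v.2 - D.A x v.1 y) := by
  sorry

-- MB-8a : curvature in the new gauge (uses MB-7a)
theorem til_OmV (H : D.Good x) : ∀ᶠ x' in 𝓝 x, ∀ (ζ ζ' : V) (p : Y),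
    OmV (D.til x).A x' ζ ζ' p = (gau D.A x x').inverse (OmV D.A x' ζ ζ' (gau D.A x x' p)) := by
  sorry

-- MB-8b : the Lie derivatives along the spray are invariant (uses MB-7a, MB-7b, MB-8a)
theorem til_lie (H : D.Good x) (s : St V Y) (hs : s.1 = x) :
    lie (D.til x).Xs (D.til x).OmS s = lie D.Xs D.OmS s ∧
    lie (D.til x).Xs (D.til x).SS s = lie D.Xs D.SS s ∧
    lie (D.til x).Xs (lie (D.til x).Xs (D.til x).SS) s = lie D.Xs (lie D.Xs D.SS) s := by
  sorry

-- MB-8c : the Lie derivatives in normal gauge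
theorem lie_NG (H : D.Good x) (N : NG D.h D.k D.S D.A x) (X U : V) (a b c d : Y) :
    lie D.Xs D.OmS (x, X, U, a, b, c, d) = D.k x a (DOmV D.h D.A x X X U b) ∧
    lie D.Xs D.SS (x, X, U, a, b, c, d) = dS4 D.S x X a b c d ∧
    lie D.Xs (lie D.Xs D.SS) (x, X, U, a, b, c, d) = hS4 D.h D.S x X X a b c d := by
  sorry

-- MB-9 : bounds for arbitrary vectors (uses MB-8c)
theorem bdN_of (H : D.Good x) (N : NG D.h D.k D.S D.A x) {b : ℝ} (h1 : 1 ≤ b) (hb : D.Bdd x b) :
    BdN D.h D.k D.S D.A x b := by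
  sorry

end

end Pool.Agent.Helper20.MB.Spec
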